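import Pool.Agent.H32.RK.TargetsA
import Pool.Agent.H32.RK.TargetsB

/-!
# Pairs of quadratic forms over a number field, row PIG: two pigeonholes
-/

set_option autoImplicit false

open Finset NumberField Pool.Agent.H32.RQ Pool.Agent.H32.RK

namespace Pool.Agent.H39.RK

section

variable {K : Type} [Field K] [NumberField K]

theorem one_le_place (a : 𝓞 K) (ha : a ≠ 0) : ∃ w : InfinitePlace K, 1 ≤ w (a : K) := by
  by_contra hcon
  push Not at hcon
  obtain ⟨w0⟩ : Nonempty (InfinitePlace K) := inferInstance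
  have h := InfinitePlace.one_le_of_lt_one (w := w0) ha (fun z _ => hcon z)
  exact absurd (hcon w0) (not_lt.2 h)

theorem w_add_le (w : InfinitePlace K) (a b : K) : w (a + b) ≤ w a + w b := by
  rw [← InfinitePlace.norm_embedding_eq, ← InfinitePlace.norm_embedding_eq,
    ← InfinitePlace.norm_embedding_eq, map_add]
  exact norm_add_le _ _

theorem w_sub_le (w : InfinitePlace K) (a b : K) : w (a - b) ≤ w a + w b := by
  rw [← InfinitePlace.norm_embedding_eq, ← InfinitePlace.norm_embedding_eq,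
    ← InfinitePlace.norm_embedding_eq, map_sub]
  exact norm_sub_le _ _

theorem w_nonneg (w : InfinitePlace K) (a : K) : 0 ≤ w a := by
  rw [← InfinitePlace.norm_embedding_eq]
  exact norm_nonneg _

/-- a large fibre of a linear form on a box -/
theorem pig_fibre (c CU : ℝ) (hc : 0 < c) (hCU : 1 ≤ CU)
    (hlow : ∀ X : ℝ, 1 ≤ X → ∃ S : Finset (𝓞 K),
      (∀ a ∈ S, ∀ w : InfinitePlace K, w (a : K) ≤ X) ∧ c * X ^ dg K ≤ (S.card : ℝ))
    (hupp : ∀ (S : Finset (𝓞 K)) (X : ℝ), 1 ≤ X →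
      (∀ a ∈ S, ∀ b ∈ S, ∀ w : InfinitePlace K, w ((a : K) - b) ≤ X) →
      (S.card : ℝ) ≤ CU * X ^ dg K)
    (B X : ℝ) (x : Fin 3 → 𝓞 K) (hB : 1 ≤ B) (hX : 1 ≤ X) (hx : Bd B x) :
    ∃ F : Finset (Fin 3 → 𝓞 K), (∀ u ∈ F, Bd X u) ∧
      (∀ u ∈ F, ∀ u' ∈ F, ∑ i, (u i - u' i) * x i = 0) ∧
      c ^ 3 / (CU * 6 ^ dg K) * (X ^ 2 / B) ^ dg K ≤ (F.card : ℝ) := by
  classical
  obtain ⟨S, hS, hSc⟩ := hlow X hX
  obtain ⟨G, hG⟩ : ∃ G : Finset (Fin 3 → 𝓞 K), G = Fintype.piFinset fun _ => S := ⟨_, rfl⟩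
  obtain ⟨f, hf⟩ : ∃ f : (Fin 3 → 𝓞 K) → 𝓞 K, f = fun u => ∑ i, u i * x i := ⟨_, rfl⟩
  have hX0 : 0 < X := by linarith
  have hB0 : 0 < B := by linarith
  have hCU0 : 0 < CU := by linarith
  have hGc : (G.card : ℝ) = (S.card : ℝ) ^ 3 := by
    rw [hG, Fintype.card_piFinset]
    simp
  have hval : ∀ u ∈ G, ∀ w : InfinitePlace K, w ((f u : 𝓞 K) : K) ≤ 3 * X * B := by
    intro u hu w
    rw [hG, Fintype.mem_piFinset] at hu
    have h1 : ∀ i, w ((u i : K) * (x i : K)) ≤ X * B := by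
      intro i
      rw [map_mul]
      exact mul_le_mul (hS _ (hu i) w) (hx i w) (w_nonneg _ _) hX0.le
    have h2 : ((f u : 𝓞 K) : K) = (u 0 : K) * (x 0 : K) + (u 1 : K) * (x 1 : K) +
        (u 2 : K) * (x 2 : K) := by
      rw [hf]
      simp only [Fin.sum_univ_three, map_add, map_mul]
    rw [h2]
    have h3 := w_add_le w ((u 0 : K) * (x 0 : K) + (u 1 : K) * (x 1 : K)) ((u 2 : K) * (x 2 : K))
    have h4 := w_add_le w ((u 0 : K) * (x 0 : K)) ((u 1 : K) * (x 1 : K))
    have a0 := h1 0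
    have a1 := h1 1
    have a2 := h1 2
    linarith
  obtain ⟨V, hV⟩ : ∃ V : Finset (𝓞 K), V = G.image f := ⟨_, rfl⟩
  have hVc : (V.card : ℝ) ≤ CU * (6 * X * B) ^ dg K := by
    refine hupp V (6 * X * B) (by nlinarith) ?_
    intro a ha b hb w
    rw [hV, Finset.mem_image] at ha hb
    obtain ⟨u, hu, rfl⟩ := ha
    obtain ⟨v, hv, rfl⟩ := hb
    have h1 := w_sub_le w ((f u : 𝓞 K) : K) ((f v : 𝓞 K) : K)
    have h2 := hval u hu w
    have h3 := hval v hv w
    linarith
  have hSpos : (0 : ℝ) < S.card := lt_of_lt_of_le (by positivity) hSc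
  have hGpos : (0 : ℝ) < G.card := by rw [hGc]; positivity
  have hGne : G.Nonempty := by
    rw [← Finset.card_pos]
    exact_mod_cast hGpos
  have hVne : V.Nonempty := by
    rw [hV]
    exact hGne.image f
  obtain ⟨b, hb⟩ : ∃ b, b = c ^ 3 / (CU * 6 ^ dg K) * (X ^ 2 / B) ^ dg K := ⟨_, rfl⟩
  have hb0 : 0 ≤ b := by rw [hb]; positivity
  have hmul : V.card • b ≤ (G.card : ℝ) := by
    rw [nsmul_eq_mul]
    calc (V.card : ℝ) * b ≤ CU * (6 * X * B) ^ dg K * b := mul_le_mul_of_nonneg_right hVc hb0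
      _ = (c * X ^ dg K) ^ 3 := by
        have e1 : (6 * X * B) ^ dg K * (X ^ 2 / B) ^ dg K = 6 ^ dg K * (X ^ dg K) ^ 3 := by
          rw [← mul_pow, ← pow_mul, mul_comm (dg K) 3, pow_mul, ← mul_pow]
          congr 1
          field_simp
        have e2 : (6 : ℝ) ^ dg K ≠ 0 := by positivity
        calc CU * (6 * X * B) ^ dg K * b = (c ^ 3 / (CU * 6 ^ dg K)) * CU *
              ((6 * X * B) ^ dg K * (X ^ 2 / B) ^ dg K) := by rw [hb]; ring
          _ = _ := by
            rw [e1]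
            field_simp
      _ ≤ (S.card : ℝ) ^ 3 := by
        have h0 : 0 ≤ c * X ^ dg K := by positivity
        exact pow_le_pow_left₀ h0 hSc 3
      _ = _ := hGc.symm
  obtain ⟨y, _, hy⟩ := Finset.exists_le_card_fiber_of_nsmul_le_card_of_maps_to
    (f := f) (s := G) (t := V) (fun a ha => by rw [hV]; exact Finset.mem_image_of_mem f ha)
    hVne hmul
  refine ⟨G.filter fun u => f u = y, ?_, ?_, ?_⟩
  · intro u hu j w
    have h1 := (Finset.mem_filter.1 hu).1
    rw [hG, Fintype.mem_piFinset] at h1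
    exact hS _ (h1 j) w
  · intro u hu u' hu'
    have h1 := (Finset.mem_filter.1 hu).2
    have h2 := (Finset.mem_filter.1 hu').2
    have h3 : ∑ i, (u i - u' i) * x i = f u - f u' := by
      rw [hf]
      simp only [sub_mul, Finset.sum_sub_distrib]
    rw [h3, h1, h2, sub_self]
  · rw [← hb]
    exact hy

end

theorem pf_PIG (K : Type) [Field K] [NumberField K] (hLOW : T_LOW K) (hUPP : T_UPP K)
    (hPCK : T_PCK K) : T_PIG K := by
  classical
  obtain ⟨c, hc, hlow⟩ := hLOW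
  obtain ⟨CU, hCU, hupp⟩ := hUPP
  obtain ⟨CP, hCP, hpck⟩ := hPCK
  have hCU0 : 0 < CU := by linarith
  obtain ⟨κ, hκd⟩ : ∃ κ, κ = c ^ 3 / (CU * 6 ^ dg K) := ⟨_, rfl⟩
  have hκ : 0 < κ := by rw [hκd]; positivity
  obtain ⟨M0, hM0d⟩ : ∃ M0, M0 = 1 + 1 / κ := ⟨_, rfl⟩
  have hM0 : 1 ≤ M0 := by
    rw [hM0d]
    have : 0 < 1 / κ := by positivity
    linarith
  have hM00 : 0 < M0 := by linarith
  have hd : 0 < dg K := Module.finrank_pos
  have hκM : 1 < κ * M0 ^ dg K := by
    have h1 : M0 ≤ M0 ^ dg K := le_self_pow₀ hM0 hd.ne'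
    have h2 : κ * M0 = κ + 1 := by
      rw [hM0d]
      field_simp
    have h3 := mul_le_mul_of_nonneg_left h1 hκ.le
    linarith
  refine ⟨4 * CP * M0, by nlinarith, ?_⟩
  intro B R x hR hx hrel
  obtain ⟨w0⟩ : Nonempty (InfinitePlace K) := inferInstance
  -- the coordinates do not vanish
  have hx0 : ∀ i, x i ≠ 0 := by
    intro i hi
    have h1 := hrel (Pi.single i 1) (fun j w => by
      by_cases hj : j = i
      · rw [hj, Pi.single_eq_same]
        simpa using hR
      · rw [Pi.single_eq_of_ne hj]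
        simp only [map_zero]
        linarith) (by
      rw [Finset.sum_eq_single i]
      · rw [hi, mul_zero]
      · intro j _ hj
        rw [Pi.single_eq_of_ne hj, zero_mul]
      · intro h
        exact absurd (Finset.mem_univ i) h)
    have h2 := congrFun h1 i
    rw [Pi.single_eq_same] at h2
    exact one_ne_zero h2
  have hB : 1 ≤ B := by
    obtain ⟨w, hw⟩ := one_le_place (x 0) (hx0 0)
    exact hw.trans (hx 0 w)
  have hB0 : 0 < B := by linarith
  -- the house
  have hne : (Finset.univ : Finset (Fin 3 × InfinitePlace K)).Nonempty :=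
    ⟨(0, w0), Finset.mem_univ _⟩
  have hne3 : (Finset.univ : Finset (Fin 3)).Nonempty := ⟨0, Finset.mem_univ _⟩
  obtain ⟨hs, hhs⟩ : ∃ hs : (Fin 3 → 𝓞 K) → ℝ, hs = fun l =>
      (Finset.univ : Finset (Fin 3 × InfinitePlace K)).sup' hne
        (fun p => p.2 (l p.1 : K)) := ⟨_, rfl⟩
  have hsle : ∀ (l : Fin 3 → 𝓞 K) (X : ℝ), hs l ≤ X ↔ Bd X l := by
    intro l X
    rw [hhs]
    show Finset.sup' _ _ _ ≤ X ↔ _
    rw [Finset.sup'_le_iff]
    exact ⟨fun h j w => h (j, w) (Finset.mem_univ _), fun h p _ => h p.1 p.2⟩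
  have hsat : ∀ l : Fin 3 → 𝓞 K, ∃ (i : Fin 3) (w : InfinitePlace K), hs l = w (l i : K) := by
    intro l
    obtain ⟨p, _, hp⟩ := Finset.exists_mem_eq_sup' (s := (Finset.univ : Finset
      (Fin 3 × InfinitePlace K))) hne (fun p => p.2 (l p.1 : K))
    exact ⟨p.1, p.2, by rw [hhs]; exact hp⟩
  -- the minimal relation
  obtain ⟨P, hP⟩ : ∃ P : Finset (Fin 3 → 𝓞 K), P = (vk K 3 B).filter
      (fun l => l ≠ 0 ∧ ∑ i, l i * x i = 0) := ⟨_, rfl⟩
  have hPm : ∀ l, l ∈ P ↔ Bd B l ∧ l ≠ 0 ∧ ∑ i, l i * x i = 0 := by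
    intro l
    rw [hP, Finset.mem_filter, vk, Set.Finite.mem_toFinset]
    rfl
  have hPne : P.Nonempty := by
    refine ⟨![x 1, -x 0, 0], (hPm _).2 ⟨?_, ?_, ?_⟩⟩
    · intro j w
      fin_cases j
      · exact hx 1 w
      · have h1 := hx 0 w
        show w ((-x 0 : 𝓞 K) : K) ≤ B
        have h2 : ((-x 0 : 𝓞 K) : K) = - (x 0 : K) := rfl
        rw [h2, ← InfinitePlace.norm_embedding_eq, map_neg, norm_neg,
          InfinitePlace.norm_embedding_eq]
        exact h1
      · show w ((0 : 𝓞 K) : K) ≤ B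
        have h2 : ((0 : 𝓞 K) : K) = 0 := rfl
        rw [h2, map_zero]
        exact hB0.le
    · intro h
      have h1 := congrFun h 0
      exact hx0 1 h1
    · rw [Fin.sum_univ_three]
      show x 1 * x 0 + -x 0 * x 1 + 0 * x 2 = 0
      ring
  obtain ⟨l, hlP, hlmin⟩ := Finset.exists_min_image P hs hPne
  obtain ⟨hlB, hl0, hlx⟩ := (hPm l).1 hlP
  obtain ⟨n, hn⟩ : ∃ n, n = hs l := ⟨_, rfl⟩
  have hmin : ∀ u : Fin 3 → 𝓞 K, u ≠ 0 → ∑ i, u i * x i = 0 → n ≤ hs u := by
    intro u hu0 hux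
    by_cases hu : Bd B u
    · rw [hn]
      exact hlmin u ((hPm u).2 ⟨hu, hu0, hux⟩)
    · have h1 : ¬ hs u ≤ B := fun h => hu ((hsle u B).1 h)
      have h2 : n ≤ B := by
        rw [hn]
        exact (hsle l B).2 hlB
      linarith [not_le.1 h1]
  have hln : Bd n l := (hsle l n).1 hn.symm.le
  have hnB : n ≤ B := by
    rw [hn]
    exact (hsle l B).2 hlB
  have hRn : R < n := by
    by_contra hcon
    have h1 : Bd R l := (hsle l R).1 (by rw [← hn]; exact not_lt.1 hcon)
    exact hl0 (hrel l h1 hlx)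
  have hR0 : 0 < R := by linarith
  have hn0 : 0 < n := by linarith
  -- claim 1
  have hc1 : n ^ 2 ≤ 4 * M0 * B := by
    have hX2 : Real.sqrt (M0 * B) ^ 2 = M0 * B := Real.sq_sqrt (by positivity)
    have hX1 : 1 ≤ Real.sqrt (M0 * B) := by
      rw [Real.one_le_sqrt]
      nlinarith
    obtain ⟨F, hF1, hF2, hF3⟩ := pig_fibre c CU hc hCU hlow hupp B (Real.sqrt (M0 * B)) x hB hX1 hx
    rw [hX2, ← hκd, mul_div_assoc, div_self hB0.ne', mul_one] at hF3
    have hF4 : 1 < F.card := by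
      have : (1 : ℝ) < F.card := lt_of_lt_of_le hκM hF3
      exact_mod_cast this
    obtain ⟨u, hu, v, hv, huv⟩ := Finset.one_lt_card.1 hF4
    have h1 : n ≤ hs (u - v) := by
      refine hmin (u - v) (sub_ne_zero.2 huv) ?_
      have := hF2 u hu v hv
      simpa only [Pi.sub_apply] using this
    have h2 : hs (u - v) ≤ 2 * Real.sqrt (M0 * B) := by
      rw [hsle]
      intro j w
      have a1 := hF1 u hu j w
      have a2 := hF1 v hv j w
      have a3 := w_sub_le w (u j : K) (v j : K)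
      have a4 : (((u - v) j : 𝓞 K) : K) = (u j : K) - (v j : K) := rfl
      rw [a4]
      linarith
    have h3 : n ≤ 2 * Real.sqrt (M0 * B) := h1.trans h2
    calc n ^ 2 ≤ (2 * Real.sqrt (M0 * B)) ^ 2 := pow_le_pow_left₀ hn0.le h3 2
      _ = 4 * (Real.sqrt (M0 * B) ^ 2) := by ring
      _ = 4 * M0 * B := by rw [hX2]; ring
  -- claim 2
  obtain ⟨M, hM⟩ : ∃ M, M = 2 * CP * M0 := ⟨_, rfl⟩
  have hM2 : 2 * M0 ≤ M := by rw [hM]; nlinarith
  have hM1 : 1 ≤ M := by linarith
  have hM00' : 0 < M := by linarith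
  obtain ⟨X, hXd⟩ : ∃ X, X = M * B / n := ⟨_, rfl⟩
  have hX1 : 1 ≤ X := by
    rw [hXd, le_div_iff₀ hn0]
    nlinarith
  have hX0 : 0 < X := by linarith
  obtain ⟨F, hF1, hF2, hF3⟩ := pig_fibre c CU hc hCU hlow hupp B X x hB hX1 hx
  rw [← hκd] at hF3
  have hFne : F.Nonempty := by
    rw [← Finset.card_pos]
    have h1 : (0 : ℝ) < F.card := lt_of_lt_of_le (by positivity) hF3
    exact_mod_cast h1
  obtain ⟨u0, hu0⟩ := hFne
  have hFd : ∀ u ∈ F, ∀ v ∈ F, Bd (2 * X) (u - v) := by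
    intro u hu v hv j w
    have a1 := hF1 u hu j w
    have a2 := hF1 v hv j w
    have a3 := w_sub_le w (u j : K) (v j : K)
    have a4 : (((u - v) j : 𝓞 K) : K) = (u j : K) - (v j : K) := rfl
    rw [a4]
    linarith
  have hFr : ∀ u ∈ F, ∀ v ∈ F, ∑ i, (u - v) i * x i = 0 := by
    intro u hu v hv
    simpa only [Pi.sub_apply] using hF2 u hu v hv
  have hex : ∃ u ∈ F, ∃ i j, mnr l (u - u0) i j ≠ 0 := by
    by_contra hcon
    push Not at hcon
    obtain ⟨k, hk⟩ : ∃ k, l k ≠ 0 := by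
      by_contra h
      push Not at h
      exact hl0 (funext h)
    have hkK : (l k : K) ≠ 0 := by
      intro h
      exact hk (RingOfIntegers.ext h)
    obtain ⟨t, htd⟩ : ∃ t : (Fin 3 → 𝓞 K) → K, t = fun u => (((u - u0) k : 𝓞 K) : K) / (l k : K) :=
      ⟨_, rfl⟩
    have htl : ∀ u ∈ F, ∀ j, (((u - u0) j : 𝓞 K) : K) = t u * (l j : K) := by
      intro u hu j
      have h1 := hcon u hu k j
      unfold mnr at h1
      have h2 : l k * (u - u0) j = l j * (u - u0) k := by linear_combination h1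
      have h3 : (l k : K) * (((u - u0) j : 𝓞 K) : K) = (l j : K) * (((u - u0) k : 𝓞 K) : K) := by
        rw [← map_mul, ← map_mul, h2]
      rw [htd]
      simp only
      rw [div_mul_eq_mul_div, eq_div_iff hkK]
      linear_combination h3
    have hdiff : ∀ u ∈ F, ∀ v ∈ F, ∀ j, (((u - v) j : 𝓞 K) : K) = (t u - t v) * (l j : K) := by
      intro u hu v hv j
      have h1 := htl u hu j
      have h2 := htl v hv j
      have h3 : (((u - v) j : 𝓞 K) : K) = (((u - u0) j : 𝓞 K) : K) - (((v - u0) j : 𝓞 K) : K) := by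
        rw [← map_sub]
        congr 1
        simp only [Pi.sub_apply]
        ring
      rw [h3, h1, h2]
      ring
    have hinj : Set.InjOn t (F : Set (Fin 3 → 𝓞 K)) := by
      intro u hu v hv huv
      funext j
      have h1 := hdiff u (Finset.mem_coe.1 hu) v (Finset.mem_coe.1 hv) j
      rw [huv, sub_self, zero_mul] at h1
      have h2 : (u - v) j = 0 := RingOfIntegers.ext h1
      exact sub_eq_zero.1 h2
    -- the sizes of `l`
    obtain ⟨lam, hlam⟩ : ∃ lam : InfinitePlace K → ℝ, lam = fun w =>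
        (Finset.univ : Finset (Fin 3)).sup' hne3 (fun i => w (l i : K)) := ⟨_, rfl⟩
    have hlam1 : ∀ w i, w (l i : K) ≤ lam w := by
      intro w i
      rw [hlam]
      exact Finset.le_sup' (fun i => w (l i : K)) (Finset.mem_univ i)
    have hlam2 : ∀ w, ∃ i, lam w = w (l i : K) := by
      intro w
      obtain ⟨i, _, hi⟩ := Finset.exists_mem_eq_sup' (s := (Finset.univ : Finset (Fin 3)))
        hne3 (fun i => w (l i : K))
      exact ⟨i, by rw [hlam]; exact hi⟩
    have hlam0 : ∀ w, 0 < lam w := fun w =>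
      lt_of_lt_of_le (InfinitePlace.pos_iff.2 hkK) (hlam1 w k)
    obtain ⟨δ, hδ⟩ : ∃ δ, δ = n / (2 * X) := ⟨_, rfl⟩
    have hδ0 : 0 < δ := by rw [hδ]; positivity
    have hXn : X * n = M * B := by
      rw [hXd]
      field_simp
    have hδ1 : δ ≤ 1 := by
      rw [hδ, div_le_one (by positivity)]
      have h1 : n * n ≤ 2 * X * n := by
        calc n * n = n ^ 2 := by ring
          _ ≤ 4 * M0 * B := hc1
          _ ≤ 2 * (M * B) := by nlinarith
          _ = 2 * X * n := by rw [← hXn]; ring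
      exact le_of_mul_le_mul_right h1 hn0
    have hT := hpck (F.image t) (fun w => 2 * X / lam w) δ hδ0 hδ1
      (fun w => div_pos (by positivity) (hlam0 w)) (by
        intro a ha b hb hab
        obtain ⟨u, hu, rfl⟩ := Finset.mem_image.1 ha
        obtain ⟨v, hv, rfl⟩ := Finset.mem_image.1 hb
        have huv : u ≠ v := fun h => hab (by rw [h])
        refine ⟨fun w => ?_, ?_⟩
        · obtain ⟨i, hi⟩ := hlam2 w
          rw [le_div_iff₀ (hlam0 w), hi, ← map_mul, ← hdiff u hu v hv i]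
          exact hFd u hu v hv i w
        · obtain ⟨i, w, hiw⟩ := hsat (u - v)
          refine ⟨w, ?_⟩
          have h1 := hmin (u - v) (sub_ne_zero.2 huv) (hFr u hu v hv)
          rw [hiw, hdiff u hu v hv i, map_mul] at h1
          have h2 : n ≤ w (t u - t v) * lam w :=
            h1.trans (mul_le_mul_of_nonneg_left (hlam1 w i) (w_nonneg _ _))
          have h3 : δ * (2 * X / lam w) = n / lam w := by
            rw [hδ]
            field_simp
          rw [h3, div_le_iff₀ (hlam0 w)]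
          exact h2)
    rw [Finset.card_image_of_injOn hinj] at hT
    -- comparison
    obtain ⟨q, hq⟩ : ∃ q, q = M * B / n ^ 2 := ⟨_, rfl⟩
    have hq0 : 0 < q := by rw [hq]; positivity
    have e1 : X ^ 2 / B = 2 * CP * q * M0 := by
      rw [hXd, hq, hM]
      field_simp
    have e2 : CP / δ = 2 * CP * q := by
      rw [hδ, hXd, hq]
      field_simp
    rw [e1] at hF3
    rw [e2] at hT
    have h1 : κ * (2 * CP * q * M0) ^ dg K ≤ (2 * CP * q) ^ dg K := hF3.trans hT
    rw [mul_pow] at h1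
    have h2 : 0 < (2 * CP * q) ^ dg K := by positivity
    have h3 : (2 * CP * q) ^ dg K * (κ * M0 ^ dg K) ≤ (2 * CP * q) ^ dg K * 1 := by
      linarith
    have h4 := le_of_mul_le_mul_left h3 h2
    linarith
  obtain ⟨u, hu, hm⟩ := hex
  have hCR : n ≤ 4 * CP * M0 * B / R := by
    rw [le_div_iff₀ hR0]
    calc n * R ≤ n * n := mul_le_mul_of_nonneg_left hRn.le hn0.le
      _ = n ^ 2 := by ring
      _ ≤ 4 * M0 * B := hc1
      _ ≤ 4 * CP * M0 * B := by
        have h1 : M0 * B ≤ CP * (M0 * B) := by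
          have : 0 < M0 * B := by positivity
          nlinarith
        linarith
  have hXR : 2 * X ≤ 4 * CP * M0 * B / R := by
    have h1 : X ≤ M * B / R := by
      rw [hXd]
      exact div_le_div_of_nonneg_left (by positivity) hR0 hRn.le
    calc 2 * X ≤ 2 * (M * B / R) := by linarith
      _ = 4 * CP * M0 * B / R := by rw [hM]; ring
  refine ⟨l, u - u0, fun j w => (hln j w).trans hCR, fun j w => (hFd u hu u0 hu0 j w).trans hXR,
    hlx, hFr u hu u0 hu0, hm⟩

end Pool.Agent.H39.RK
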